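import Mathlib
import Pool.Agent.Helper22.SC.U9
import Pool.Agent.Helper22.SC.M3

set_option autoImplicit false
open MeasureTheory Real Set

namespace Pool.Agent.Results.MP_fb29e9_nt.AllCentres

/-- The number of integer points in `c + R · D`, where `D = {p | p.1 cos t + p.2 sin t ≤ H t for all t}`. -/
noncomputable def latticeCount (H : ℝ → ℝ) (c : ℝ × ℝ) (R : ℝ) : ℝ :=
  (Nat.card {k : ℤ × ℤ // ∀ t : ℝ, ((k.1 : ℝ) - c.1) * cos t + ((k.2 : ℝ) - c.2) * sin t ≤ R * H t} : ℝ)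

/-- The area of `D`. -/
noncomputable def area (H : ℝ → ℝ) : ℝ :=
  (volume {p : ℝ × ℝ | ∀ t : ℝ, p.1 * cos t + p.2 * sin t ≤ H t}).toReal

/-- `H` is a `C²` support function, with positive radius of curvature `H + H''`, and `0` lies inside `D`. -/
def IsSupport (H : ℝ → ℝ) : Prop :=
  ContDiff ℝ 2 H ∧ Function.Periodic H (2 * π) ∧ ∀ t, 0 < H t ∧ 0 < H t + deriv (deriv H) t

/-- The radii `R` for which the error of `c + R · D` is more than `R ^ θ`. -/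
def badRadii (θ : ℝ) (H : ℝ → ℝ) (c : ℝ × ℝ) : Set ℝ :=
  {R : ℝ | R ^ θ < |latticeCount H c R - area H * R ^ 2|}

/-- Let `1/2 < θ < 2/3`. (1) For every `C²` oval, the radii `R` in `[X, 2X]` for which SOME centre has an error of more than `R ^ θ` have measure
`O(X ^ (5 - 8θ + ε))`; so for `θ > 5/8` all the radii `R ≥ 1` with this property have together finite measure. (2) The exponent `5 - 8θ` is exact,
even for the single centre `0`, for ovals as close to the disc (in `C²`) as one likes. -/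
theorem result : (∀ H : ℝ → ℝ, IsSupport H → ∀ θ : ℝ, 1 / 2 < θ → θ < 2 / 3 →
    (∀ ε : ℝ, 0 < ε → ∃ C : ℝ, ∀ X : ℝ, 1 ≤ X →
      volume ((⋃ c : ℝ × ℝ, badRadii θ H c) ∩ Icc X (2 * X)) ≤ ENNReal.ofReal (C * X ^ (5 - 8 * θ + ε))) ∧
    (5 / 8 < θ → volume ((⋃ c : ℝ × ℝ, badRadii θ H c) ∩ Ici 1) < ⊤)) ∧
  ∀ δ : ℝ, 0 < δ → ∃ H : ℝ → ℝ, IsSupport H ∧
    (∀ t, |H t - 1| ≤ δ ∧ |deriv H t| ≤ δ ∧ |deriv (deriv H) t| ≤ δ) ∧
    ∀ θ : ℝ, 1 / 2 < θ → θ < 2 / 3 → ∀ ε : ℝ, 0 < ε → ∀ X₀ : ℝ, ∃ X : ℝ, X₀ ≤ X ∧ 1 ≤ X ∧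
      ENNReal.ofReal (X ^ (5 - 8 * θ - ε)) ≤ volume (badRadii θ H (0, 0) ∩ Icc X (2 * X)) := by
  refine ⟨fun H hH θ h1 h2 => ?_, fun δ hδ => ?_⟩
  · have hs : Pool.Agent.Helper22.AE.IsSupp H := ⟨hH.1, hH.2.1, fun t => (hH.2.2 t).1, fun t => (hH.2.2 t).2⟩
    refine ⟨fun ε hε => ?_, fun h3 => ?_⟩
    · obtain ⟨C, hC⟩ := Pool.Agent.Helper22.SC.all_centres2 hs h1 h2 hε
      refine ⟨C, fun X hX => le_trans (measure_mono ?_) (hC X hX)⟩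
      rintro R ⟨hR1, hR2⟩
      obtain ⟨c, hc⟩ := mem_iUnion.1 hR1
      exact ⟨hR2, c, hc⟩
    · refine lt_of_le_of_lt (measure_mono ?_) (Pool.Agent.Helper22.SC.finite_bad2 hs h3 h2)
      rintro R ⟨hR1, hR2⟩
      obtain ⟨c, hc⟩ := mem_iUnion.1 hR1
      exact ⟨hR2, c, hc⟩
  · obtain ⟨H, hN, hS, hb⟩ := Pool.Agent.Helper22.SC.exact_radii hδ
    refine ⟨H, ⟨hS.smooth, hS.per, fun t => ⟨hS.pos t, hS.rho_pos t⟩⟩, fun t => ⟨hN.d0 t, hN.d1 t, hN.d2 t⟩, ?_⟩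
    intro θ h1 h2 ε hε X₀
    obtain ⟨X, hX0, hX1, hX⟩ := hb θ h1 h2 ε hε X₀
    refine ⟨X, hX0, hX1, hX.trans (measure_mono ?_)⟩
    rintro R ⟨hR1, hR2⟩
    exact ⟨hR2, hR1⟩

end Pool.Agent.Results.MP_fb29e9_nt.AllCentres
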