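import Mathlib
import Pool.Agent.Helper22.AE.F6

set_option autoImplicit false
open MeasureTheory Real unitInterval

namespace Pool.Agent.Results.MP_fb29e9_nt.AlmostEveryDomain

/-- The number of integer points in `R · D`, where `D = {p | p.1 cos t + p.2 sin t ≤ H t for all t}`. -/
noncomputable def latticeCount (H : ℝ → ℝ) (R : ℝ) : ℝ :=
  (Nat.card {k : ℤ × ℤ // ∀ t : ℝ, (k.1 : ℝ) * cos t + (k.2 : ℝ) * sin t ≤ R * H t} : ℝ)

/-- The area of `D`. -/
noncomputable def area (H : ℝ → ℝ) : ℝ :=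
  (volume {p : ℝ × ℝ | ∀ t : ℝ, p.1 * cos t + p.2 * sin t ≤ H t}).toReal

/-- `H` is a `C²` support function, with positive radius of curvature `H + H''`, and `0` lies inside `D`. -/
def IsSupport (H : ℝ → ℝ) : Prop :=
  ContDiff ℝ 2 H ∧ Function.Periodic H (2 * π) ∧ ∀ t, 0 < H t ∧ 0 < H t + deriv (deriv H) t

/-- The bound of Q1 for the domain with support function `H`, with exponent `1/2 + ε`. -/
def Bound (ε : ℝ) (H : ℝ → ℝ) : Prop :=
  ∃ C : ℝ, ∀ R : ℝ, 1 ≤ R → |latticeCount H R - area H * R ^ 2| ≤ C * R ^ (1 / 2 + ε)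

/-- Let `H₀` be any `C²` periodic function (`H₀ = 1` for the disc) and `s l` any scales with `∑ l² |s l| < ∞`, none of them zero
(for a fixed `ε` only the first `2/ε + 10` have to be nonzero). Let the pairs `x l` be independent and uniform in the unit square. Almost
surely: if `H = H₀ + ∑ s l (X l cos l t + Y l sin l t)` is a support function, then its domain satisfies the bound of Q1. -/
theorem result : ∀ H₀ : ℝ → ℝ, ContDiff ℝ 2 H₀ → Function.Periodic H₀ (2 * π) →
    ∀ s : ℕ → ℝ, Summable (fun l : ℕ => (l : ℝ) ^ 2 * |s l|) →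
      ∀ᵐ x ∂(Measure.infinitePi fun _ : ℕ => (volume : Measure (I × I))),
        ∀ H : ℝ → ℝ, (∀ t, H t = H₀ t + ∑' l : ℕ, s l * ((x l).1 * cos (l * t) + (x l).2 * sin (l * t))) →
          IsSupport H → ∀ ε : ℝ, 0 < ε → (∀ l : ℕ, (l : ℝ) < 2 / ε + 10 → s l ≠ 0) → Bound ε H := by
  intro H₀ h0 hp s hs
  filter_upwards [Pool.Agent.Helper22.AE.main_series h0 hp hs] with x hx
  intro H hH hsup ε hε hl
  have hH' : H = Pool.Agent.Helper22.AE.Hx H₀ s x := funext hH
  subst hH'
  exact hx ⟨hsup.1, hsup.2.1, fun t => (hsup.2.2 t).1, fun t => (hsup.2.2 t).2⟩ ε hε hl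

end Pool.Agent.Results.MP_fb29e9_nt.AlmostEveryDomain
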