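import Mathlib
import Pool.Agent.Helper93.EX.Fin4

/-!
# The circle problem for almost every oval (prevalence): the law of the large values of the error, with the exact constants
-/

set_option autoImplicit false
open MeasureTheory Real Set

namespace Pool.Agent.Helper22.Keep.AlmostEveryOvalV4

/-- The space `V` of the `2π`-periodic functions `ℝ → ℝ` of class `C^k`. -/
structure Per (k : ℕ) where
  /-- the function -/
  val : ℝ → ℝ
  /-- it is of class `C^k` -/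
  smooth : ContDiff ℝ k val
  /-- it is `2π`-periodic -/
  periodic : Function.Periodic val (2 * π)

/-- The topology of `C^k`: uniform convergence of the derivatives of the orders `0, …, k`. -/
noncomputable instance (k : ℕ) : TopologicalSpace (Per k) :=
  TopologicalSpace.induced (fun v (j : Fin (k + 1)) => UniformFun.ofFun (iteratedDeriv j v.val)) inferInstance

/-- The Borel sets. -/
noncomputable instance (k : ℕ) : MeasurableSpace (Per k) := borel (Per k)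

/-- `S` is prevalent (its complement is shy, or Haar null; Christensen, Hunt-Sauer-Yorke): the complement lies in a Borel set `B` of `V` such that some Borel
probability measure `μ` on `V` with compact support has `μ (B - v) = 0` for all `v ∈ V`. -/
def Prevalent {k : ℕ} (S : Set (Per k)) : Prop :=
  ∃ B : Set (Per k), Sᶜ ⊆ B ∧ MeasurableSet B ∧ ∃ μ : Measure (Per k), IsProbabilityMeasure μ ∧ (∃ K : Set (Per k), IsCompact K ∧ μ Kᶜ = 0) ∧
    ∀ v : Per k, μ {w | ∃ u ∈ B, ∀ t, u.val t = w.val t + v.val t} = 0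

/-- The determinant of the vectors `a`, `b`. -/
def det (a b : ℝ × ℝ) : ℝ := a.1 * b.2 - a.2 * b.1

/-- The number of `(m, n) ∈ ℤ²` with `m a + n b ∈ c + R · D`, where `D = {p | p.1 cos t + p.2 sin t ≤ H t for all t}`. -/
noncomputable def latticeCount (a b : ℝ × ℝ) (H : ℝ → ℝ) (c : ℝ × ℝ) (R : ℝ) : ℝ :=
  (Nat.card {k : ℤ × ℤ // ∀ t : ℝ, ((k.1 : ℝ) * a.1 + (k.2 : ℝ) * b.1 - c.1) * cos t +
    ((k.1 : ℝ) * a.2 + (k.2 : ℝ) * b.2 - c.2) * sin t ≤ R * H t} : ℝ)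

/-- The area of `D`. -/
noncomputable def area (H : ℝ → ℝ) : ℝ :=
  (volume {p : ℝ × ℝ | ∀ t : ℝ, p.1 * cos t + p.2 * sin t ≤ H t}).toReal

/-- The error: the number of points of the lattice `ℤ a + ℤ b` in `c + R · D` minus `area(D) R² / |det(a, b)|`. -/
noncomputable def err (a b : ℝ × ℝ) (H : ℝ → ℝ) (c : ℝ × ℝ) (R : ℝ) : ℝ := latticeCount a b H c R - area H * R ^ 2 / |det a b|

/-- `g(R) = R^(1/2) (log R)^(1/4)`. -/
noncomputable def g (R : ℝ) : ℝ := R ^ (1 / 2 : ℝ) * log R ^ (1 / 4 : ℝ)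

/-- The affine perimeter of `D`: the integral of `(H + H'')^(2/3)` over `[0, 2π]`. -/
noncomputable def affinePerimeter (H : ℝ → ℝ) : ℝ := ∫ t in (0 : ℝ)..(2 * π), (H t + deriv (deriv H) t) ^ (2 / 3 : ℝ)

/-- The wave `f(x) = π⁻¹ ∑_{j ≥ 1} j^(-3/2) cos(2π j x - 3π/4)`. -/
noncomputable def wave (x : ℝ) : ℝ :=
  1 / π * ∑' j : ℕ, ((j + 1 : ℕ) : ℝ) ^ (-(3 / 2) : ℝ) * cos (2 * π * (((j + 1 : ℕ) : ℝ) * x) - 3 * π / 4)

/-- `Λ(s)`, the logarithm of the integral of `exp(s f(x))` over `[0, 1]`. -/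
noncomputable def logLaplace (s : ℝ) : ℝ := log (∫ x in (0 : ℝ)..1, exp (s * wave x))

/-- The constant `κ(σ) = 4 (2 π⁻² ∫₀^∞ Λ(σ r^(-3/2)) r dr)^(3/4)`. -/
noncomputable def kappa (σ : ℝ) : ℝ := 4 * (2 / π ^ 2 * ∫ r in Ioi (0 : ℝ), logLaplace (σ * r ^ (-(3 / 2) : ℝ)) * r) ^ (3 / 4 : ℝ)

/-- `T(σ, H) = κ(σ) P^(3/4)`, `P` the affine perimeter. -/
noncomputable def T (σ : ℝ) (H : ℝ → ℝ) : ℝ := kappa σ * affinePerimeter H ^ (3 / 4 : ℝ)

/-- The Lebesgue measure of the set of the `R` in `[X, 2X]` with `σ · error ≥ t g(R)`, for the lattice `ℤ²`. -/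
noncomputable def largeValues (σ : ℝ) (H : ℝ → ℝ) (c : ℝ × ℝ) (t X : ℝ) : ℝ :=
  volume.real {R : ℝ | R ∈ Icc X (2 * X) ∧ t * g R ≤ σ * err (1, 0) (0, 1) H c R}

/-- `κ(1)` and `κ(-1)` are positive. Let `2 ≤ k ≤ 5`. Almost every `2π`-periodic function `H` of class `C^k`, in the sense of prevalence, has the property: if
`H + H'' > 0` then (1) for every compact set `K` of lattices `ℤ a + ℤ b`, the error is at most `C g(R)` in absolute value for all lattices of `K`, all `R ≥ 2` and all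
centres `c`; (2) for the lattice `ℤ²`, `σ = 1` or `-1`, all `t > 0`, `ε > 0`, all large `X` and all centres, the measure of the set of the `R` in `[X, 2X]` with
`σ · error ≥ t g(R)` is at most `X^(1 - (t/T)^4 + ε)`, and at least `X^(1 - (t/T)^4 - ε)` if `t < T`; if `t > T` then `σ · error < t g(R)` for all `R ≥ X`. -/
theorem result (k : ℕ) (hk : 2 ≤ k) (hk5 : k ≤ 5) :
    0 < kappa 1 ∧ 0 < kappa (-1) ∧
    Prevalent {H : Per k | (∀ t, 0 < H.val t + deriv (deriv H.val) t) →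
      (∀ K : Set ((ℝ × ℝ) × (ℝ × ℝ)), IsCompact K → (∀ p ∈ K, det p.1 p.2 ≠ 0) →
        ∃ C : ℝ, ∀ p ∈ K, ∀ R : ℝ, 2 ≤ R → ∀ c : ℝ × ℝ, |err p.1 p.2 H.val c R| ≤ C * g R) ∧
      ∀ σ : ℝ, σ = 1 ∨ σ = -1 → ∀ t : ℝ, 0 < t → ∀ ε : ℝ, 0 < ε → ∃ X₀ : ℝ, ∀ X : ℝ, X₀ ≤ X → ∀ c : ℝ × ℝ,
        largeValues σ H.val c t X ≤ X ^ (1 - (t / T σ H.val) ^ 4 + ε) ∧
        (t < T σ H.val → X ^ (1 - (t / T σ H.val) ^ 4 - ε) ≤ largeValues σ H.val c t X) ∧
        (T σ H.val < t → ∀ R : ℝ, X ≤ R → σ * err (1, 0) (0, 1) H.val c R < t * g R)} := by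
  have hkap : ∀ σ : ℝ, σ = 1 ∨ σ = -1 → 0 < kappa σ := by
    intro σ hσ
    have h := Pool.Agent.Helper93.EX.Jc_pos hσ
    have h2 : 0 < 2 / π ^ 2 * ∫ r in Ioi (0 : ℝ), logLaplace (σ * r ^ (-(3 / 2) : ℝ)) * r := mul_pos (by positivity) h
    unfold kappa
    positivity
  refine ⟨hkap 1 (Or.inl rfl), hkap (-1) (Or.inr rfl), ?_⟩
  have hB : BorelSpace (Per k) := ⟨rfl⟩
  have hP : Pool.Agent.Helper93.AO.IsPer k (Per.val (k := k)) := by
    refine ⟨fun v => v.smooth, fun v => v.periodic, fun v w h => ?_, fun f h1 h2 => ⟨⟨f, h1, h2⟩, rfl⟩, ⟨rfl⟩⟩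
    cases v
    cases w
    simp only [Per.mk.injEq]
    exact h
  obtain ⟨B, h1, h2, h3⟩ := Pool.Agent.Helper93.EX.prev_fin4 hP hk hk5
  exact ⟨B, fun H hH => by_contra fun hn => hH (h1 H hn), h2, h3⟩

end Pool.Agent.Helper22.Keep.AlmostEveryOvalV4
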