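import Mathlib
import Pool.Agent.Helper60.AD.Main
import Pool.Agent.Helper92.AD.A13

/-!
# The circle problem for almost every smooth (analytic) oval, all radii and all centres: the exponent `1/2 + ε`
-/

set_option autoImplicit false
open MeasureTheory Real unitInterval

namespace Pool.Agent.Results.MP_fb29e9_nt.AlmostEverySmoothOval

/-- The number of `k ∈ ℤ²` in `c + R · D`, where `D = {p | p.1 cos t + p.2 sin t ≤ H t for all t}`. -/
noncomputable def latticeCount (H : ℝ → ℝ) (c : ℝ × ℝ) (R : ℝ) : ℝ :=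
  (Nat.card {k : ℤ × ℤ // ∀ t : ℝ, ((k.1 : ℝ) - c.1) * cos t + ((k.2 : ℝ) - c.2) * sin t ≤ R * H t} : ℝ)

/-- The area of `D`. -/
noncomputable def area (H : ℝ → ℝ) : ℝ :=
  (volume {p : ℝ × ℝ | ∀ t : ℝ, p.1 * cos t + p.2 * sin t ≤ H t}).toReal

/-- `H + H'' > 0` (`H` of class `C²` and `2π`-periodic): `H` is the support function of the oval `D`, and `H + H''` is its radius of curvature. -/
def IsOval (H : ℝ → ℝ) : Prop := ∀ t : ℝ, 0 < H t + deriv (deriv H) t

/-- The bound of Q1 for the oval `D`, with the exponent `1/2 + ε`, for all centres `c`. -/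
def Bound (ε : ℝ) (H : ℝ → ℝ) : Prop :=
  ∃ C : ℝ, ∀ R : ℝ, 1 ≤ R → ∀ c : ℝ × ℝ, |latticeCount H c R - area H * R ^ 2| ≤ C * R ^ (1 / 2 + ε)

/-- Let `H₀` be any `2π`-periodic function of class `C²` (`H₀ = 1` for the disc) and `s l` any real numbers with `∑ l² |s l| < ∞` (for example
`s l = exp (-l)`). Let the pairs `x l = (X l, Y l)` be independent and uniform in the unit square. Almost surely: if `H = H₀ + ∑ s l (X l cos l t + Y l sin l t)`
satisfies `H + H'' > 0`, then its oval satisfies the bound of Q1 for all radii `R ≥ 1` and all centres, for every `ε > 0` such that `s l ≠ 0` for all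
`l < 2/ε + 10` (so for every `ε > 0` if no `s l` vanishes). -/
theorem result : ∀ H₀ : ℝ → ℝ, ContDiff ℝ 2 H₀ → Function.Periodic H₀ (2 * π) →
    ∀ s : ℕ → ℝ, Summable (fun l : ℕ => (l : ℝ) ^ 2 * |s l|) →
      ∀ᵐ x ∂(Measure.infinitePi fun _ : ℕ => (volume : Measure (I × I))),
        ∀ H : ℝ → ℝ, (∀ t, H t = H₀ t + ∑' l : ℕ, s l * ((x l).1 * cos (l * t) + (x l).2 * sin (l * t))) →
          IsOval H → ∀ ε : ℝ, 0 < ε → (∀ l : ℕ, (l : ℝ) < 2 / ε + 10 → s l ≠ 0) → Bound ε H := by
  intro H₀ h0 hp s hs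
  filter_upwards [Pool.Agent.Helper60.AD.main_ser2 h0 hp hs] with x hx
  intro H hH hov ε hε hl
  have hH' : H = Pool.Agent.Helper22.AE.Hx H₀ s x := funext hH
  subst hH'
  exact hx hov ε hε hl

/-! ## Prevalence in `C^k`, `2 ≤ k ≤ ∞` -/

/-- The space of the `2π`-periodic functions `ℝ → ℝ` of class `C^k`, `k ≤ ∞`. -/
structure Per (k : ℕ∞) where
  /-- the function -/
  val : ℝ → ℝ
  /-- it is of class `C^k` -/
  smooth : ContDiff ℝ k val
  /-- it is `2π`-periodic -/
  periodic : Function.Periodic val (2 * π)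

/-- The topology of `C^k`: uniform convergence of the derivatives of all orders `≤ k`. -/
noncomputable instance (k : ℕ∞) : TopologicalSpace (Per k) :=
  TopologicalSpace.induced (fun v (j : {j : ℕ // (j : ℕ∞) ≤ k}) => UniformFun.ofFun (iteratedDeriv j.1 v.val)) inferInstance

/-- The Borel sets. -/
noncomputable instance (k : ℕ∞) : MeasurableSpace (Per k) := borel (Per k)

/-- `S` is prevalent (its complement is shy, or Haar null; Christensen, Hunt-Sauer-Yorke): the complement lies in a Borel set `B` such that some Borel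
probability measure `μ` with compact support has `μ (B - v) = 0` for all `v`. -/
def Prevalent {k : ℕ∞} (S : Set (Per k)) : Prop :=
  ∃ B : Set (Per k), Sᶜ ⊆ B ∧ MeasurableSet B ∧ ∃ μ : Measure (Per k), IsProbabilityMeasure μ ∧ (∃ K : Set (Per k), IsCompact K ∧ μ Kᶜ = 0) ∧
    ∀ v : Per k, μ {w | ∃ u ∈ B, ∀ t, u.val t = w.val t + v.val t} = 0

/-- Corollary: for `2 ≤ k ≤ ∞`, almost every function of class `C^k`, in the sense of prevalence, satisfies the bound with every `ε > 0` if `H + H'' > 0`. -/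
theorem prevalent (k : ℕ∞) (hk : 2 ≤ k) : Prevalent {H : Per k | IsOval H.val → ∀ ε : ℝ, 0 < ε → Bound ε H.val} := by
  have hB : BorelSpace (Per k) := ⟨rfl⟩
  have hP : Pool.Agent.Helper92.AD.IsPerI k (Per.val (k := k)) := by
    refine ⟨fun v => v.smooth, fun v => v.periodic, fun v w h => ?_, fun f h1 h2 => ⟨⟨f, h1, h2⟩, rfl⟩, ⟨rfl⟩⟩
    cases v
    cases w
    simp only [Per.mk.injEq]
    exact h
  obtain ⟨B, h1, h2, h3⟩ := Pool.Agent.Helper92.AD.prev_all Pool.Agent.Helper60.AD.main_ser2 hk hP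
  exact ⟨B, fun H hH => h1 H hH, h2, h3⟩

end Pool.Agent.Results.MP_fb29e9_nt.AlmostEverySmoothOval
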