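import Mathlib
import Pool.Agent.Helper60.AD.Main
import Pool.Agent.Helper60.AD.Worst
import Pool.Agent.Helper60.AD.Meas
import Pool.Agent.Helper60.MM.M8
import Pool.Agent.Helper92.LW.Exact
import Pool.Agent.Helper22.WC.Main
import Pool.Agent.Helper92.LW.Asy
import Pool.Agent.Helper22.XL.Val
import Pool.Agent.Helper56.XL.Main
import Pool.Agent.Helper68.XL.FC

/-!
# The circle problem for almost every smooth (analytic) oval, all radii and all centres: the error has the conjectured size in every `L^p`, `0 < p ≤ ∞`, with exact constants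
-/

set_option autoImplicit false
open MeasureTheory Real unitInterval Filter Topology

namespace Pool.Agent.Helper22.Keep.AlmostEverySmoothOval_v5

/-- The number of `k ∈ ℤ²` in `c + R · D`, where `D = {p | p.1 cos t + p.2 sin t ≤ H t for all t}`. -/
noncomputable def latticeCount (H : ℝ → ℝ) (c : ℝ × ℝ) (R : ℝ) : ℝ :=
  (Nat.card {k : ℤ × ℤ // ∀ t : ℝ, ((k.1 : ℝ) - c.1) * cos t + ((k.2 : ℝ) - c.2) * sin t ≤ R * H t} : ℝ)

/-- The area of `D`. -/
noncomputable def area (H : ℝ → ℝ) : ℝ :=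
  (volume {p : ℝ × ℝ | ∀ t : ℝ, p.1 * cos t + p.2 * sin t ≤ H t}).toReal

/-- `H + H'' > 0` (`H` of class `C²` and `2π`-periodic): `H` is the support function of the oval `D`, and `H + H''` is its radius of curvature. -/
def IsOval (H : ℝ → ℝ) : Prop := ∀ t : ℝ, 0 < H t + deriv (deriv H) t

/-- The bound of Q1 for the oval `D`, with the exponent `1/2 + ε`, for all centres `c`. -/
def Bound (ε : ℝ) (H : ℝ → ℝ) : Prop :=
  ∃ C : ℝ, ∀ R : ℝ, 1 ≤ R → ∀ c : ℝ × ℝ, |latticeCount H c R - area H * R ^ 2| ≤ C * R ^ (1 / 2 + ε)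

/-- The primitive vectors `v ∈ ℤ²` with `|v|_∞ < N`. -/
noncomputable def prims (N : ℕ) : Finset (ℤ × ℤ) :=
  (Finset.Ioo (-(N : ℤ)) N ×ˢ Finset.Ioo (-(N : ℤ)) N).filter fun v => Int.gcd v.1 v.2 = 1

/-- The vector `v` as a complex number: `‖vec v‖` is its length and `(vec v).arg` the angle of its direction. -/
def vec (v : ℤ × ℤ) : ℂ := ⟨(v.1 : ℝ), (v.2 : ℝ)⟩

/-- The random sum `Z_N(c) = π⁻¹ ∑ r(v)^(1/2) |v|^(-3/2) j^(-3/2) cos(2π j (u_v + v · c) - 3π/4)`, over the primitive vectors `v ∈ ℤ²` and the integers `j ≥ 1`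
with `j |v|_∞ < N`; `r(v)` is the radius of curvature of the oval at the angle of `v`. (For `u_v = R |v| H(angle of v)` it is the
sum of the first main terms of the error at the centre `c`, divided by `√R`.) -/
noncomputable def Z (H : ℝ → ℝ) (N : ℕ) (u : prims N → ℝ) (c : ℝ × ℝ) : ℝ :=
  ∑ v : prims N, √(H (vec v).arg + deriv (deriv H) (vec v).arg) * ‖vec v‖ ^ (-(3 / 2) : ℝ) *
    (π⁻¹ * ∑ j ∈ Finset.Icc 1 ((N - 1) / max v.1.1.natAbs v.1.2.natAbs), (j : ℝ) ^ (-(3 / 2) : ℝ) *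
      cos (2 * π * j * (u v + (v.1.1 * c.1 + v.1.2 * c.2)) - 3 * π / 4))

/-- The power moment of order `p` of the error has an asymptotic formula, at every centre `a` (with the same main term, uniformly in `a`) and at the worst centre:
`∫_1^X |N_a(R) - area D · R²|^p dR ∼ M X^(1+p/2)` and `∫_1^X sup_c |N_c(R) - area D · R²|^p dR ∼ M' X^(1+p/2)` as `X → ∞`, with `M, M' > 0`, where
`(1 + p/2) M = lim E |Z_N(0)|^p` and `(1 + p/2) M' = lim E (sup_c |Z_N(c)|)^p`, as `N → ∞` through the powers of `2`, for independent phases `u_v` uniform in `[0, 1]`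
(`∫⁻` is the Lebesgue integral of a function with values in `[0, ∞]`, finite here because `M' > 0`; the integrands are Borel functions, see `measurable` below;
`Z_N` is bounded and continuous in `u` and `c`). -/
def Moment (p : ℝ) (H : ℝ → ℝ) : Prop :=
  ∃ M M' : ℝ, 0 < M ∧ 0 < M' ∧
    Tendsto (fun n : ℕ => ∫ u in Set.Icc (0 : prims (2 ^ n) → ℝ) 1, |Z H (2 ^ n) u 0| ^ p) atTop (𝓝 ((1 + p / 2) * M)) ∧
    Tendsto (fun n : ℕ => ∫ u in Set.Icc (0 : prims (2 ^ n) → ℝ) 1, (⨆ c : ℝ × ℝ, |Z H (2 ^ n) u c|) ^ p) atTop (𝓝 ((1 + p / 2) * M')) ∧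
    ∀ δ : ℝ, 0 < δ → ∃ X₀ : ℝ, 1 ≤ X₀ ∧ ∀ X : ℝ, X₀ ≤ X →
      (∀ a : ℝ × ℝ, |(∫ R in Set.Icc 1 X, |latticeCount H a R - area H * R ^ 2| ^ p) / X ^ (1 + p / 2) - M| ≤ δ) ∧
      |(∫⁻ R in Set.Icc 1 X, ⨆ c : ℝ × ℝ, ENNReal.ofReal (|latticeCount H c R - area H * R ^ 2| ^ p)).toReal / X ^ (1 + p / 2) - M'| ≤ δ

theorem prims_eq (N : ℕ) : prims N = Pool.Agent.Helper93.EX.prim N := by
  ext v
  unfold prims Pool.Agent.Helper93.EX.prim Pool.Agent.Helper22.AE.box Pool.Agent.Helper93.EX.sn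
  rw [Finset.mem_filter, Finset.mem_filter, Finset.mem_product, Finset.mem_product, Finset.mem_Ioo, Finset.mem_Ioo, Finset.mem_Icc, Finset.mem_Icc]
  constructor
  · rintro ⟨⟨⟨h1, h2⟩, h3, h4⟩, h5⟩
    refine ⟨⟨⟨h1.le, h2.le⟩, h3.le, h4.le⟩, h5, ?_⟩
    omega
  · rintro ⟨⟨⟨h1, h2⟩, h3, h4⟩, h5, h6⟩
    refine ⟨⟨⟨?_, ?_⟩, ?_, ?_⟩, h5⟩ <;> omega

theorem sum_shift (f : ℕ → ℝ) (J : ℕ) : ∑ j ∈ Finset.Icc 1 J, f j = ∑ j ∈ Finset.range J, f (j + 1) := by
  induction J with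
  | zero => simp
  | succ n ih => rw [Finset.sum_range_succ, ← ih, Finset.sum_Icc_succ_top (by omega)]

/-- The random sum over a finite set of vectors. -/
noncomputable def ZZ (S : Finset (ℤ × ℤ)) (H : ℝ → ℝ) (N : ℕ) (u : S → ℝ) (c : ℝ × ℝ) : ℝ :=
  ∑ v : S, √(H (vec v).arg + deriv (deriv H) (vec v).arg) * ‖vec v‖ ^ (-(3 / 2) : ℝ) *
    (π⁻¹ * ∑ j ∈ Finset.Icc 1 ((N - 1) / max v.1.1.natAbs v.1.2.natAbs), (j : ℝ) ^ (-(3 / 2) : ℝ) *
      cos (2 * π * j * (u v + (v.1.1 * c.1 + v.1.2 * c.2)) - 3 * π / 4))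

theorem ZZ_eq (H : ℝ → ℝ) (N : ℕ) : ZZ (Pool.Agent.Helper93.EX.prim N) H N = Pool.Agent.Helper22.XL.Zs H N := by
  funext u c
  unfold ZZ Pool.Agent.Helper22.XL.Zs
  refine Finset.sum_congr rfl fun v _ => ?_
  have e1 : √(H (vec v).arg + deriv (deriv H) (vec v).arg) * ‖vec v‖ ^ (-(3 / 2) : ℝ) = Pool.Agent.Helper93.EX.ak H v.1 := by
    rw [mul_comm]
    rfl
  rw [e1]
  congr 1
  unfold Pool.Agent.Helper93.EX.fJ Pool.Agent.Helper93.EX.sn
  rw [one_div]
  congr 1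
  rw [sum_shift]
  refine Finset.sum_congr rfl fun j _ => ?_
  rw [mul_assoc (2 * π)]

theorem moment_aux {H : ℝ → ℝ} (h2 : ContDiff ℝ 2 H) (hper : Function.Periodic H (2 * π)) (hov : IsOval H) (hP : Pool.Agent.Helper22.WC.PM3 H)
    (hX : Pool.Agent.Helper22.XL.XP H) (p : ℝ) (hp : 0 < p) : Moment p H := by
  obtain ⟨q, hq⟩ := (Pool.Agent.Helper92.WC.pow_growth hp).2
  obtain ⟨M, hM, hl, hm⟩ := Pool.Agent.Helper22.XL.asymp_val hP h2 hper hp
  obtain ⟨M', hM', hl', hm'⟩ := Pool.Agent.Helper22.XL.asymp_val_S hP h2 hper hov hp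
  have t1 := Pool.Agent.Helper56.XL.limF_eq h2 hper hov hP hX (Pool.Agent.Helper92.WC.pow_growth hp).1 hq hm
  have t2 := Pool.Agent.Helper56.XL.limS_eq h2 hper hov hP hX (Pool.Agent.Helper92.WC.pow_growth hp).1 hq hm'
  refine ⟨M, M', hM, hM', ?_, ?_, fun δ hδ => ?_⟩
  · refine t1.congr fun n => ?_
    unfold Pool.Agent.Helper22.XL.mF
    rw [← ZZ_eq, ← prims_eq]
    rfl
  · refine t2.congr fun n => ?_
    have e : ∀ N : ℕ, ∀ u : {k // k ∈ Pool.Agent.Helper93.EX.prim N} → ℝ, |Pool.Agent.Helper22.XL.ZS H N u| ^ p = (⨆ c : ℝ × ℝ, |Pool.Agent.Helper22.XL.Zs H N u c|) ^ p := by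
      intro N u
      unfold Pool.Agent.Helper22.XL.ZS
      rw [abs_of_nonneg (Real.iSup_nonneg fun c => abs_nonneg _)]
    unfold Pool.Agent.Helper22.XL.mS
    simp only [e]
    rw [← ZZ_eq, ← prims_eq]
    rfl
  · obtain ⟨X₁, hX₁, h1⟩ := hl δ hδ
    obtain ⟨X₂, hX₂, h3⟩ := hl' δ hδ
    exact ⟨max X₁ X₂, hX₁.trans (le_max_left _ _), fun X hX => ⟨h1 X ((le_max_left _ _).trans hX), (h3 X ((le_max_right _ _).trans hX)).2⟩⟩

/-- Let `H₀` be any `2π`-periodic function of class `C²` (`H₀ = 1` for the disc) and `s l` any real numbers with `∑ l² |s l| < ∞` (for example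
`s l = exp (-l)`). Let the pairs `x l = (X l, Y l)` be independent and uniform in the unit square. Almost surely: if `H = H₀ + ∑ s l (X l cos l t + Y l sin l t)`
satisfies `H + H'' > 0`, then the error of its oval has the conjectured size: if no `s l` vanishes, the power moments of every real order `p > 0` have asymptotic
formulas of the order `X^(1+p/2)`, with the same main term at all centres, and also at the worst centre, and so (`p = ∞`) the bound of Q1 holds for every `ε > 0`, for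
all radii `R ≥ 1` and all centres;
for this bound, for one `ε`, it is enough that `s l ≠ 0` for all `l < 2/ε + 10`. -/
theorem result : ∀ H₀ : ℝ → ℝ, ContDiff ℝ 2 H₀ → Function.Periodic H₀ (2 * π) →
    ∀ s : ℕ → ℝ, Summable (fun l : ℕ => (l : ℝ) ^ 2 * |s l|) →
      ∀ᵐ x ∂(Measure.infinitePi fun _ : ℕ => (volume : Measure (I × I))),
        ∀ H : ℝ → ℝ, (∀ t, H t = H₀ t + ∑' l : ℕ, s l * ((x l).1 * cos (l * t) + (x l).2 * sin (l * t))) →
          IsOval H →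
            ((∀ l : ℕ, s l ≠ 0) → ∀ p : ℝ, 0 < p → Moment p H) ∧
            ∀ ε : ℝ, 0 < ε → (∀ l : ℕ, (l : ℝ) < 2 / ε + 10 → s l ≠ 0) → Bound ε H := by
  intro H₀ h0 hp s hs
  have h1 := Pool.Agent.Helper60.AD.main_ser2 h0 hp hs
  have h2 : ∀ᵐ x ∂(Measure.infinitePi fun _ : ℕ => (volume : Measure (I × I))), (∀ l, s l ≠ 0) →
      (∀ θ, 0 < Pool.Agent.Helper22.AE.Hx H₀ s x θ + deriv (deriv (Pool.Agent.Helper22.AE.Hx H₀ s x)) θ) →
      Pool.Agent.Helper22.WC.PM3 (Pool.Agent.Helper22.AE.Hx H₀ s x) ∧ Pool.Agent.Helper22.XL.XP (Pool.Agent.Helper22.AE.Hx H₀ s x) := by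
    by_cases hl : ∀ l, s l ≠ 0
    · filter_upwards [Pool.Agent.Helper22.WC.main_ser_PM3 h0 hp hs hl, Pool.Agent.Helper68.XL.main_ser_XP h0 hp hs hl] with x hx hy
      exact fun _ hov => ⟨hx hov, hy hov⟩
    · exact Filter.Eventually.of_forall fun x hl' => absurd hl' hl
  filter_upwards [h1, h2] with x hx hx'
  intro H hH hov
  have hH' : H = Pool.Agent.Helper22.AE.Hx H₀ s x := funext hH
  subst hH'
  exact ⟨fun hl p hp0 => moment_aux (Pool.Agent.Helper22.AE.Hx_smooth h0 hs x) (Pool.Agent.Helper22.AE.Hx_per hp s x) hov (hx' hl hov).1 (hx' hl hov).2 p hp0,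
    fun ε hε hl => hx hov ε hε hl⟩

/-- The integrands in `Moment` are Borel functions. -/
theorem measurable (H : ℝ → ℝ) (h2 : ContDiff ℝ 2 H) (hp : Function.Periodic H (2 * π)) (hov : IsOval H) (p : ℝ) (hp0 : 0 < p) :
    (∀ c : ℝ × ℝ, Measurable (fun R : ℝ => latticeCount H c R)) ∧
      Measurable (fun R : ℝ => ⨆ c : ℝ × ℝ, ENNReal.ofReal (|latticeCount H c R - area H * R ^ 2| ^ p)) :=
  ⟨Pool.Agent.Helper60.MM.cntc_radius_meas H, Pool.Agent.Helper60.AD.worst_measurable' h2 hp hov hp0⟩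

/-! ## The limit law -/

/-- `φ` is continuous and has polynomial growth. -/
def IsTest (φ : ℝ → ℝ) : Prop :=
  Continuous φ ∧ ∃ (A : ℝ) (q : ℕ), ∀ y : ℝ, |φ y| ≤ A * (1 + |y|) ^ q

/-- The normalized error `(N_c(R) - area D · R²)/√R` has a limit law `ν`, which is the same for all centres `c` and not the unit mass at `0`, and all its moments
converge to the moments of `ν`: `(1/X) ∫_X^{2X} φ((N_c(R) - area D · R²)/√R) dR → ∫ φ dν` as `X → ∞`, uniformly in `c`, for every continuous `φ` of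
polynomial growth. -/
def HasLaw (H : ℝ → ℝ) : Prop :=
  ∃ ν : Measure ℝ, IsProbabilityMeasure ν ∧ 0 < ∫ y, y ^ 2 ∂ν ∧ ∀ φ : ℝ → ℝ, IsTest φ → Integrable φ ν ∧
    ∀ δ : ℝ, 0 < δ → ∃ X₀ : ℝ, 1 ≤ X₀ ∧ ∀ X : ℝ, X₀ ≤ X → ∀ c : ℝ × ℝ,
      |X⁻¹ * (∫ R in Set.Icc X (2 * X), φ ((latticeCount H c R - area H * R ^ 2) / sqrt R)) - ∫ y, φ y ∂ν| ≤ δ

theorem law_aux {H : ℝ → ℝ} (h2 : ContDiff ℝ 2 H) (hp : Function.Periodic H (2 * π)) (hP : Pool.Agent.Helper92.LW.PM2 H) : HasLaw H := by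
  obtain ⟨ν, h1, h3, h4⟩ := hP.law h2 hp
  refine ⟨ν, h1, h3, fun φ hφ => ?_⟩
  obtain ⟨hφ, A, q, hg⟩ := hφ
  exact h4 φ hφ A q hg

/-- If no `s l` vanishes, then almost surely the error has a limit law if `H + H'' > 0`. -/
theorem limit_law : ∀ H₀ : ℝ → ℝ, ContDiff ℝ 2 H₀ → Function.Periodic H₀ (2 * π) →
    ∀ s : ℕ → ℝ, Summable (fun l : ℕ => (l : ℝ) ^ 2 * |s l|) → (∀ l : ℕ, s l ≠ 0) →
      ∀ᵐ x ∂(Measure.infinitePi fun _ : ℕ => (volume : Measure (I × I))),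
        ∀ H : ℝ → ℝ, (∀ t, H t = H₀ t + ∑' l : ℕ, s l * ((x l).1 * cos (l * t) + (x l).2 * sin (l * t))) → IsOval H → HasLaw H := by
  intro H₀ h0 hp s hs hs0
  filter_upwards [Pool.Agent.Helper92.LW.main_ser_PM2 h0 hp hs hs0] with x hx
  intro H hH hov
  have hH' : H = Pool.Agent.Helper22.AE.Hx H₀ s x := funext hH
  subst hH'
  exact law_aux (Pool.Agent.Helper22.AE.Hx_smooth h0 hs x) (Pool.Agent.Helper22.AE.Hx_per hp s x) (hx hov)

/-! ## Prevalence in `C^k`, `2 ≤ k ≤ ∞` -/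

/-- The space of the `2π`-periodic functions `ℝ → ℝ` of class `C^k`, `k ≤ ∞`. -/
structure Per (k : ℕ∞) where
  /-- the function -/
  val : ℝ → ℝ
  /-- it is of class `C^k` -/
  smooth : ContDiff ℝ k val
  /-- it is `2π`-periodic -/
  periodic : Function.Periodic val (2 * π)

/-- The topology of `C^k`: uniform convergence of the derivatives of all orders `≤ k`. -/
noncomputable instance (k : ℕ∞) : TopologicalSpace (Per k) :=
  TopologicalSpace.induced (fun v (j : {j : ℕ // (j : ℕ∞) ≤ k}) => UniformFun.ofFun (iteratedDeriv j.1 v.val)) inferInstance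

/-- The Borel sets. -/
noncomputable instance (k : ℕ∞) : MeasurableSpace (Per k) := borel (Per k)

/-- `S` is prevalent (its complement is shy, or Haar null; Christensen, Hunt-Sauer-Yorke): the complement lies in a Borel set `B` such that some Borel
probability measure `μ` with compact support has `μ (B - v) = 0` for all `v`. -/
def Prevalent {k : ℕ∞} (S : Set (Per k)) : Prop :=
  ∃ B : Set (Per k), Sᶜ ⊆ B ∧ MeasurableSet B ∧ ∃ μ : Measure (Per k), IsProbabilityMeasure μ ∧ (∃ K : Set (Per k), IsCompact K ∧ μ Kᶜ = 0) ∧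
    ∀ v : Per k, μ {w | ∃ u ∈ B, ∀ t, u.val t = w.val t + v.val t} = 0

/-- Corollary: for `2 ≤ k ≤ ∞`, almost every function of class `C^k`, in the sense of prevalence, has these properties if `H + H'' > 0`. -/
theorem prevalent (k : ℕ∞) (hk : 2 ≤ k) :
    Prevalent {H : Per k | IsOval H.val → (∀ ε : ℝ, 0 < ε → Bound ε H.val) ∧ HasLaw H.val} := by
  have hB : BorelSpace (Per k) := ⟨rfl⟩
  have hP : Pool.Agent.Helper92.AD.IsPerI k (Per.val (k := k)) := by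
    refine ⟨fun v => v.smooth, fun v => v.periodic, fun v w h => ?_, fun f h1 h2 => ⟨⟨f, h1, h2⟩, rfl⟩, ⟨rfl⟩⟩
    cases v
    cases w
    simp only [Per.mk.injEq]
    exact h
  obtain ⟨B, h1, h2, h3⟩ := Pool.Agent.Helper92.LW.prev_PM2 hk hP
  refine ⟨B, fun H hH => h1 H fun h => hH fun hov => ?_, h2, h3⟩
  have hc : ContDiff ℝ 2 H.val := H.smooth.of_le (show ((2 : ℕ∞) : WithTop ℕ∞) ≤ (k : WithTop ℕ∞) from WithTop.coe_le_coe.2 hk)
  have hPM := h hov
  exact ⟨fun ε hε => Pool.Agent.Helper60.AD.bound_of_moms hc H.periodic hov hPM.1.1 hε, law_aux hc H.periodic hPM⟩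

end Pool.Agent.Helper22.Keep.AlmostEverySmoothOval_v5
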