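import Mathlib
import Pool.Agent.Helper75.GC.Dense
import Pool.Agent.Helper75.GD.Fil

/-!
# Lattice points in generic members of a family of ovals, in every position: exponent `5/9 + ε` and the dimension of the exceptional sets
-/

set_option autoImplicit false
open MeasureTheory Real Set
open scoped ENNReal NNReal

namespace Pool.Agent.Results.MP_fb29e9_nt.GenericFamilies

/-- The radius of curvature of the curve with support function `H`, at the point with outer normal `(cos t, sin t)`. -/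
noncomputable def radius (H : ℝ → ℝ) (t : ℝ) : ℝ := H t + deriv (deriv H) t

/-- The logarithmic velocity `v_s = ∂ log ρ_s / ∂s` of the radius of curvature `ρ_s` in the family `s ↦ H s`. -/
noncomputable def velocity (H : ℝ → ℝ → ℝ) (s t : ℝ) : ℝ := deriv (fun s => log (radius (H s) t)) s

/-- `s` is a generic parameter of the family: `H s` is the support function of an oval (its radius of curvature is positive), and all critical
points of the function `v_s` on the circle are nondegenerate. -/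
def IsGeneric (H : ℝ → ℝ → ℝ) (s : ℝ) : Prop :=
  (∀ t, 0 < radius (H s) t) ∧ ∀ t, deriv (velocity H s) t ≠ 0 ∨ deriv (deriv (velocity H s)) t ≠ 0

/-- The number of `(m, n) ∈ ℤ²` with `m a + n b ∈ c + R · D`, where `D = {p | p.1 cos t + p.2 sin t ≤ H t for all t}`; for linearly independent `a`, `b`
this is the number of points of the lattice `ℤ a + ℤ b` in `c + R · D`. -/
noncomputable def latticeCount (a b : ℝ × ℝ) (H : ℝ → ℝ) (c : ℝ × ℝ) (R : ℝ) : ℝ :=
  (Nat.card {k : ℤ × ℤ // ∀ t : ℝ, ((k.1 : ℝ) * a.1 + (k.2 : ℝ) * b.1 - c.1) * cos t +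
    ((k.1 : ℝ) * a.2 + (k.2 : ℝ) * b.2 - c.2) * sin t ≤ R * H t} : ℝ)

/-- The area of `D`. -/
noncomputable def area (H : ℝ → ℝ) : ℝ :=
  (volume {p : ℝ × ℝ | ∀ t : ℝ, p.1 * cos t + p.2 * sin t ≤ H t}).toReal

/-- The determinant of two vectors. -/
def det (a b : ℝ × ℝ) : ℝ := a.1 * b.2 - a.2 * b.1

/-- The discrepancy bound with exponent `e + ε` for the lattice `ℤ a + ℤ b` and the oval with support function `H`: for every `ε > 0` there is `C` such
that for all `R ≥ 1` and all `c` the number of lattice points in `c + R · D` is `area(D) R² / |det(a, b)|` with an error of at most `C R^(e + ε)`. -/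
def HasBound (a b : ℝ × ℝ) (H : ℝ → ℝ) (e : ℝ) : Prop :=
  ∀ ε : ℝ, 0 < ε → ∃ C : ℝ, ∀ R : ℝ, 1 ≤ R → ∀ c : ℝ × ℝ, |latticeCount a b H c R - (area H * R ^ 2 / |det a b|)| ≤ C * R ^ (e + ε)

/-- The set `S` has Lebesgue measure `0` and Hausdorff dimension at most `1 - 12 (e - 5/9) / (2 - e)` (which is less than `1` for `e > 5/9`, and `0` for
`e = 2/3`; if it is negative, for `e > 2/3`, the dimension is `0`). -/
def IsSmall (e : ℝ) (S : Set ℝ) : Prop := volume S = 0 ∧ dimH S ≤ ENNReal.ofReal (1 - 12 * (e - 5 / 9) / (2 - e))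

/-- Let `H(s, t)` be of class `C⁷` and `2π`-periodic in `t`, for `s` in an open set `I` of real numbers, let `a`, `b` be linearly independent and
`5/9 ≤ e < 1`. The set of all generic `s ∈ I` for which the oval with support function `H(s, ·)` and the lattice `ℤ a + ℤ b` do not have the bound with
exponent `e + ε` is small: it has measure `0` and Hausdorff dimension at most `1 - 12 (e - 5/9) / (2 - e)` (`0` if this is negative). -/
theorem result : ∀ (I : Set ℝ) (H : ℝ → ℝ → ℝ), IsOpen I → ContDiffOn ℝ 7 (fun q : ℝ × ℝ => H q.1 q.2) (I ×ˢ univ) →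
    (∀ s ∈ I, Function.Periodic (H s) (2 * π)) → ∀ a b : ℝ × ℝ, det a b ≠ 0 → ∀ e : ℝ, 5 / 9 ≤ e → e < 1 →
      IsSmall e {s | s ∈ I ∧ IsGeneric H s ∧ ¬ HasBound a b (H s) e} := by
  intro I H hI h hp a b hab e he he1
  have key := Pool.Agent.Helper75.GD.mainF (Pool.Agent.Helper75.GD.isLoc_small e) (P := fun G => HasBound a b G e)
    (Pool.Agent.Helper75.GD.main_small hab he he1) hI h hp
  refine ⟨measure_mono_null ?_ key.1, (dimH_mono ?_).trans key.2⟩
  all_goals
    rintro s ⟨h1, h2, h3⟩ h4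
    exact h3 (h4 h1 h2.1 h2.2)

/-- The case `e = 5/9`: almost every member. -/
theorem almost_every (I : Set ℝ) (H : ℝ → ℝ → ℝ) (hI : IsOpen I) (h : ContDiffOn ℝ 7 (fun q : ℝ × ℝ => H q.1 q.2) (I ×ˢ univ))
    (hp : ∀ s ∈ I, Function.Periodic (H s) (2 * π)) (a b : ℝ × ℝ) (hab : det a b ≠ 0) : ∀ᵐ s : ℝ, s ∈ I → IsGeneric H s → HasBound a b (H s) (5 / 9) := by
  rw [ae_iff]
  refine measure_mono_null ?_ (result I H hI h hp a b hab (5 / 9) le_rfl (by norm_num)).1
  intro s hs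
  rw [mem_ofPred_eq, Classical.not_imp, Classical.not_imp] at hs
  exact hs

/-- Almost every member with respect to a measure of dimension `d` (a measure which is absolutely continuous with respect to the Hausdorff measure
`μH[d]`), if `d > 1 - 12 (e - 5/9) / (2 - e)`. For the Cantor measure, `d = log 2 / log 3`, this gives every `e > 0.59866`. -/
theorem fractal (I : Set ℝ) (H : ℝ → ℝ → ℝ) (hI : IsOpen I) (h : ContDiffOn ℝ 7 (fun q : ℝ × ℝ => H q.1 q.2) (I ×ˢ univ))
    (hp : ∀ s ∈ I, Function.Periodic (H s) (2 * π)) (a b : ℝ × ℝ) (hab : det a b ≠ 0) (e : ℝ) (he : 5 / 9 ≤ e) (he1 : e < 1)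
    (d : ℝ≥0) (hd : 0 < d) (hde : 1 - 12 * (e - 5 / 9) / (2 - e) < d) (μ : Measure ℝ) (hμ : μ ≪ μH[d]) :
    ∀ᵐ s ∂μ, s ∈ I → IsGeneric H s → HasBound a b (H s) e := by
  rw [ae_iff]
  refine measure_mono_null ?_ (measure_zero_of_dimH_lt hμ (lt_of_le_of_lt (result I H hI h hp a b hab e he he1).2 ?_))
  · intro s hs
    rw [mem_ofPred_eq, Classical.not_imp, Classical.not_imp] at hs
    exact hs
  · rw [← ENNReal.ofReal_coe_nnreal]
    exact (ENNReal.ofReal_lt_ofReal_iff (by exact_mod_cast hd)).2 hde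

/-- A perturbation of the family. -/
noncomputable def perturb (H : ℝ → ℝ → ℝ) (M : ℝ) (k : ℕ) (α β s t : ℝ) : ℝ := H s t + exp (M * s) * (α * cos (k * t) + β * sin (k * t))

/-- Almost every parameter is generic after an arbitrarily small perturbation of the family: for every `C⁷` family of ovals over a compact interval `[p, q]`
there are `M`, `k` and arbitrarily small `α`, `β` such that almost every `s ∈ [p, q]` is generic for the family
`H(s, t) + e^(M s) (α cos k t + β sin k t)`, which by `almost_every` has the bound with exponent `5/9 + ε` for almost every `s ∈ [p, q]`. -/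
theorem isGeneric_dense (H : ℝ → ℝ → ℝ) (h : ContDiff ℝ 7 fun q : ℝ × ℝ => H q.1 q.2) (hp : ∀ s, Function.Periodic (H s) (2 * π)) (p q : ℝ)
    (hr : ∀ s ∈ Icc p q, ∀ t, 0 < radius (H s) t) : ∃ (M : ℝ) (k : ℕ), ∀ δ : ℝ, 0 < δ → ∃ α β : ℝ, |α| < δ ∧ |β| < δ ∧
      ∀ᵐ s : ℝ, s ∈ Icc p q → IsGeneric (perturb H M k α β) s :=
  Pool.Agent.Helper75.GCF.dense_fam h hp hr

/-- The number of `(m, n) ∈ ℤ²` with `p (m - v₁)² + q (m - v₁)(n - v₂) + r (n - v₂)² ≤ R²`. -/
noncomputable def formCount (p q r : ℝ) (v : ℝ × ℝ) (R : ℝ) : ℝ :=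
  (Nat.card {k : ℤ × ℤ // p * ((k.1 : ℝ) - v.1) ^ 2 + q * ((k.1 : ℝ) - v.1) * ((k.2 : ℝ) - v.2) + r * ((k.2 : ℝ) - v.2) ^ 2 ≤ R ^ 2} : ℝ)

/-- Example: the members of a `C⁷` curve `s ↦ p(s) m² + q(s) mn + r(s) n²` of positive definite forms at which the curve moves transversally to
the rays (`(p, q, r)` and its derivative are linearly independent). -/
theorem forms (I : Set ℝ) (p q r : ℝ → ℝ) (hI : IsOpen I) (hp : ContDiffOn ℝ 7 p I) (hq : ContDiffOn ℝ 7 q I) (hr : ContDiffOn ℝ 7 r I)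
    (e : ℝ) (he : 5 / 9 ≤ e) (he1 : e < 1) :
    IsSmall e {s | s ∈ I ∧ 0 < p s ∧ q s ^ 2 < 4 * p s * r s ∧ ¬(p s * deriv q s = deriv p s * q s ∧ p s * deriv r s = deriv p s * r s) ∧
      ¬ ∀ ε : ℝ, 0 < ε → ∃ C : ℝ, ∀ R : ℝ, 1 ≤ R → ∀ v : ℝ × ℝ,
        |formCount (p s) (q s) (r s) v R - 2 * π / √(4 * p s * r s - q s ^ 2) * R ^ 2| ≤ C * R ^ (e + ε)} := by
  have key := Pool.Agent.Helper75.GD.forms_main (Pool.Agent.Helper75.GD.isLoc_small e) (Pool.Agent.Helper75.GD.main_std he he1) hI hp hq hr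
  refine ⟨measure_mono_null ?_ key.1, (dimH_mono ?_).trans key.2⟩
  all_goals
    rintro s ⟨h1, h2, h3, h4, h5⟩ h6
    exact h5 (h6 h1 h2 h3 h4)

/-- Example: `A(m, n)² + α B(m, n)²` for arbitrary linearly independent linear forms `A(m, n) = m u₁ + n v₁`, `B(m, n) = m u₂ + n v₂`, `α > 0`. -/
theorem stretch (u v : ℝ × ℝ) (huv : det u v ≠ 0) (e : ℝ) (he : 5 / 9 ≤ e) (he1 : e < 1) :
    IsSmall e {α | 0 < α ∧ ¬ ∀ ε : ℝ, 0 < ε → ∃ C : ℝ, ∀ R : ℝ, 1 ≤ R → ∀ c : ℝ × ℝ,
      |(Nat.card {k : ℤ × ℤ // ((k.1 : ℝ) * u.1 + k.2 * v.1 - c.1) ^ 2 + α * ((k.1 : ℝ) * u.2 + k.2 * v.2 - c.2) ^ 2 ≤ R ^ 2} : ℝ) -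
        π * R ^ 2 / (√α * |det u v|)| ≤ C * R ^ (e + ε)} := by
  have key := Pool.Agent.Helper75.GD.stretch_main (Pool.Agent.Helper75.GD.isLoc_small e) (Pool.Agent.Helper75.GD.main_std he he1) u v huv
  refine ⟨measure_mono_null ?_ key.1, (dimH_mono ?_).trans key.2⟩
  all_goals
    rintro s ⟨h1, h2⟩ h3
    exact h2 (h3 h1)

/-- Example: the forms `m² + α n²`, `α > 0`. -/
theorem rectangle (e : ℝ) (he : 5 / 9 ≤ e) (he1 : e < 1) :
    IsSmall e {α | 0 < α ∧ ¬ ∀ ε : ℝ, 0 < ε → ∃ C : ℝ, ∀ R : ℝ, 1 ≤ R → ∀ c : ℝ × ℝ,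
      |(Nat.card {k : ℤ × ℤ // ((k.1 : ℝ) - c.1) ^ 2 + α * ((k.2 : ℝ) - c.2) ^ 2 ≤ R ^ 2} : ℝ) - π * R ^ 2 / √α| ≤ C * R ^ (e + ε)} := by
  have key := stretch (1, 0) (0, 1) (by simp [det]) e he he1
  simpa [det] using key

/-- Example: the rotations of an oval for which `(log ρ)''` has only simple zeros, `ρ` the radius of curvature. -/
theorem rotation (G : ℝ → ℝ) (h : ContDiff ℝ 7 G) (hp : Function.Periodic G (2 * π)) (hr : ∀ t, 0 < radius G t)
    (hm : ∀ t, deriv (deriv fun t => log (radius G t)) t ≠ 0 ∨ deriv (deriv (deriv fun t => log (radius G t))) t ≠ 0) (a b : ℝ × ℝ) (hab : det a b ≠ 0)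
    (e : ℝ) (he : 5 / 9 ≤ e) (he1 : e < 1) : IsSmall e {s | ¬ HasBound a b (fun t => G (t - s)) e} :=
  Pool.Agent.Helper75.GD.rot_main (P := fun G => HasBound a b G e) (Pool.Agent.Helper75.GD.main_small hab he he1) h hp hr hm

/-- Example: the Minkowski sums `D + s K`, the ovals with support functions `G + s K`, for the `s` for which they are ovals, if the ratio of the
radii of curvature of `G` and `K` has only nondegenerate critical points. For `K = 1` these are the curves parallel to the oval with support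
function `G`. -/
theorem minkowski (G K : ℝ → ℝ) (h : ContDiff ℝ 7 G) (hK : ContDiff ℝ 7 K) (hp : Function.Periodic G (2 * π)) (hpK : Function.Periodic K (2 * π))
    (hm : ∀ t, deriv (radius G) t * radius K t ≠ radius G t * deriv (radius K) t ∨
      deriv (deriv (radius G)) t * radius K t ≠ radius G t * deriv (deriv (radius K)) t) (a b : ℝ × ℝ) (hab : det a b ≠ 0)
    (e : ℝ) (he : 5 / 9 ≤ e) (he1 : e < 1) :
    IsSmall e {s | (∀ t, 0 < radius G t + s * radius K t) ∧ ¬ HasBound a b (fun t => G t + s * K t) e} := by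
  have key := Pool.Agent.Helper75.GD.line_main (P := fun G => HasBound a b G e) (Pool.Agent.Helper75.GD.main_small hab he he1) h hK hp hpK hm
  refine ⟨measure_mono_null ?_ key.1, (dimH_mono ?_).trans key.2⟩
  all_goals
    rintro s ⟨h1, h2⟩ h3
    exact h2 (h3 h1)

end Pool.Agent.Results.MP_fb29e9_nt.GenericFamilies
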