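import Mathlib
import Pool.Agent.Helper22.LIL.MAIN

/-!
# A law of the iterated logarithm for the circle problem on lacunary sequences of radii

For every lacunary sequence `lam` and almost every dilation `α > 0`, the error term
`P(R) = F(R) - π R²` at the radii `R = α lam k` oscillates, in both directions, exactly to the
order `√R (log k)^(1/4) (log log k)^((3/4)(2^(1/3) - 1))`.
-/

namespace Pool.Agent.Results.MP_fb29e9_nt.LacunaryIteratedLog

open Filter MeasureTheory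

/-- The error term `P(R) = F(R) - π R²` of the circle problem. -/
noncomputable def circleError (R : ℝ) : ℝ :=
  (Nat.card {p : ℤ × ℤ // (p.1 : ℝ) ^ 2 + (p.2 : ℝ) ^ 2 ≤ R ^ 2} : ℝ) - Real.pi * R ^ 2

/-- The growth function `(log k)^(1/4) (log log k)^((3/4)(2^(1/3) - 1))`. -/
noncomputable def growth (k : ℕ) : ℝ :=
  (Real.log k) ^ (1 / 4 : ℝ) * (Real.log (Real.log k)) ^ ((3 / 4 : ℝ) * ((2 : ℝ) ^ (1 / 3 : ℝ) - 1))

theorem result : ∃ c C : ℝ, 0 < c ∧ 0 < C ∧ ∀ (β : ℝ) (lam : ℕ → ℝ), 1 < β →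
    (∀ k, 0 < lam k) → (∀ k, β * lam k ≤ lam (k + 1)) →
    ∀ᵐ α ∂(volume.restrict (Set.Ioi (0 : ℝ))),
      (∀ᶠ k : ℕ in atTop, |circleError (α * lam k)| ≤ C * √(α * lam k) * growth k) ∧
      (∃ᶠ k : ℕ in atTop, c * √(α * lam k) * growth k ≤ circleError (α * lam k)) ∧
      (∃ᶠ k : ℕ in atTop, circleError (α * lam k) ≤ -(c * √(α * lam k) * growth k)) := by
  obtain ⟨c, C, hc, hC, h⟩ := Pool.Agent.Helper22.LIL.lil_main
  refine ⟨c, C, hc, hC, fun β lam hβ h1 h2 => ?_⟩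
  have hPe : ∀ R, circleError R = Pool.Agent.Helper22.GC.Pe R := fun R => by
    rw [Pool.Agent.Helper22.GC.Pe_eq, circleError]
  have hgr : ∀ k, growth k = Pool.Agent.Helper22.LIL.Phi k := fun k => by
    rw [growth, Pool.Agent.Helper22.LIL.Phi, Pool.Agent.Helper53.OM.kap]
  filter_upwards [h β lam hβ ⟨h1, h2⟩ 1 (Or.inl rfl), h β lam hβ ⟨h1, h2⟩ (-1) (Or.inr rfl)]
    with α hp hm
  simp only [hPe, hgr]
  refine ⟨?_, ?_, ?_⟩
  · filter_upwards [hp.1, hm.1] with k h3 h4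
    rw [one_mul] at h3
    rw [abs_le]
    constructor <;> linarith
  · refine hp.2.mono fun k hk => ?_
    rwa [one_mul] at hk
  · refine hm.2.mono fun k hk => ?_
    linarith

end Pool.Agent.Results.MP_fb29e9_nt.LacunaryIteratedLog
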