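import Mathlib
import Pool.Agent.Helper22.RZ.Last

/-!
# Large negative values of the error term of the circle problem, in arithmetic progressions

For every step `α > 0` the error term `P(R) = F(R) - π R²` is, at `X^(1-ε)` of the radii
`R = α n ≤ X`, as negative as `- c R^(1/2) (log R)^(1/4) (log log R)^((3/4)(2^(1/3)-1))`.
-/

namespace Pool.Agent.Results.MP_fb29e9_nt.OmegaMinusProgressions

/-- The error term `P(R) = F(R) - π R²` of the circle problem. -/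
noncomputable def circleError (R : ℝ) : ℝ :=
  (Nat.card {p : ℤ × ℤ // (p.1 : ℝ) ^ 2 + (p.2 : ℝ) ^ 2 ≤ R ^ 2} : ℝ) - Real.pi * R ^ 2

/-- The function `(log R)^(1/4) (log log R)^((3/4)(2^(1/3)-1))`. -/
noncomputable def gain (R : ℝ) : ℝ :=
  (Real.log R) ^ (1 / 4 : ℝ) * (Real.log (Real.log R)) ^ (3 / 4 * ((2 : ℝ) ^ (1 / 3 : ℝ) - 1))

open Pool.Agent.Helper22.GC Pool.Agent.Helper22.RZ in
theorem result : ∀ ε : ℝ, 0 < ε → ∃ c : ℝ, 0 < c ∧ ∀ α : ℝ, 0 < α → ∃ X₀ : ℝ, ∀ X : ℝ, X₀ ≤ X →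
    X ^ (1 - ε) ≤ Nat.card {n : ℕ // X ^ (1 - ε) ≤ α * n ∧ α * n ≤ X ∧
      circleError (α * n) ≤ -c * (α * n) ^ (1 / 2 : ℝ) * gain (α * n)} := by
  intro ε hε
  obtain ⟨c, hc, h⟩ := dens hε
  refine ⟨c, hc, fun α hα => ?_⟩
  obtain ⟨X₀, hX₀⟩ := h α hα
  refine ⟨X₀, fun X hX => ?_⟩
  have key : ∀ n : ℕ, circleError (α * n) ≤ -c * (α * n) ^ (1 / 2 : ℝ) * gain (α * n) ↔
      Pe (α * n) ≤ -(c * √(α * n) * gn (α * n)) := by
    intro n
    rw [Pe_eq, circleError, Real.sqrt_eq_rpow]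
    have : -c * (α * n) ^ (1 / 2 : ℝ) * gain (α * n) =
        -(c * (α * n) ^ (1 / 2 : ℝ) * gn (α * n)) := by
      rw [gain, gn, Pool.Agent.Helper53.OM.kap]; ring
    rw [this]
  simp only [key]
  exact hX₀ X hX

end Pool.Agent.Results.MP_fb29e9_nt.OmegaMinusProgressions
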