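import Pool.Agent.Helper69.PQ.Close

open Filter Topology
open Pool.Agent.Helper57.PC

namespace Pool.Agent.Results.MP_8958e8_nt.PositiveProportion

/-- The nontrivial zero `ρ` is multiple, or some other nontrivial zero lies level with it or at most
`0.515` mean spacings `2π/log T` above it. -/
def HasCloseSuccessor (T : ℝ) (ρ : ℂ) : Prop :=
  2 ≤ mult ρ ∨ ∃ ρ' : ℂ, IsNontrivialZero ρ' ∧ ρ' ≠ ρ ∧ 0 ≤ ρ'.im - ρ.im ∧
    (ρ'.im - ρ.im) * Real.log T / (2 * Real.pi) ≤ 103 / 200

/-- The number of such zeros with ordinate in `[0,T]`, counted with multiplicity. -/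
noncomputable def closeCount (T : ℝ) : ℝ :=
  ∑ᶠ ρ ∈ {ρ : ℂ | ρ ∈ zerosUpTo T ∧ HasCloseSuccessor T ρ}, (mult ρ : ℝ)

open Pool.Agent.Helper57.Zeta Pool.Agent.Helper57.LH Pool.Agent.Helper4.SH Pool.Agent.Helper69.PP in
open Classical in
lemma closeCount_ge (T : ℝ) : ∑ ρ ∈ (ZT T).filter (CloseUpC (103 / 200) T), mx ρ ≤ closeCount T := by
  have hfin : {ρ : ℂ | ρ ∈ zerosUpTo T ∧ HasCloseSuccessor T ρ}.Finite :=
    (zerosUpTo_finite T).subset fun ρ h => h.1
  unfold closeCount
  rw [finsum_mem_eq_finite_toFinset_sum _ hfin]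
  have h1 : ∑ ρ ∈ (ZT T).filter (CloseUpC (103 / 200) T), mx ρ =
      ∑ ρ ∈ ((ZT T).filter (CloseUpC (103 / 200) T)).map ⟨Subtype.val, Subtype.val_injective⟩, (mult ρ : ℝ) := by
    rw [Finset.sum_map]
    refine Finset.sum_congr rfl fun ρ _ => ?_
    unfold mx
    rw [Function.Embedding.coeFn_mk, mult_eq (isNontrivialZero_iff.mpr ρ.2)]
  rw [h1]
  refine Finset.sum_le_sum_of_subset_of_nonneg ?_ (fun _ _ _ => Nat.cast_nonneg _)
  intro ρ hρ
  obtain ⟨r, hr, rfl⟩ := Finset.mem_map.mp hρ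
  obtain ⟨hr1, hr2⟩ := Finset.mem_filter.mp hr
  have hz : IsNontrivialZero (r : ℂ) := isNontrivialZero_iff.mpr r.2
  rw [Set.Finite.mem_toFinset]
  refine ⟨⟨hz, mem_ZT.mp hr1⟩, ?_⟩
  rcases hr2 with h | ⟨r', hne, h0, hle⟩
  · left
    show 2 ≤ mult (r : ℂ)
    rw [mult_eq hz]
    exact h
  · right
    exact ⟨r', isNontrivialZero_iff.mpr r'.2, fun h => hne (Subtype.ext h), h0, hle⟩

end Pool.Agent.Results.MP_8958e8_nt.PositiveProportion

open Pool.Agent.Results.MP_8958e8_nt.PositiveProportion in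
/-- Unconditional small gaps between the ordinates of the zeros of the Riemann zeta function, with
constant `0.515`. There is `c > 0` such that for all large `T` at least `c T log T` of the zeros with
ordinate in `[0,T]` (counted with multiplicity) are multiple or are followed by another zero at most
`0.515` mean spacings above them, and the pair count satisfies
`N(T; -0.515, 0.515) ≥ (1 + c) T log T/(2π)`. No hypothesis is used. -/
theorem Pool.Agent.Results.MP_8958e8_nt.PositiveProportion.result :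
    ∃ c : ℝ, 0 < c ∧ ∃ T₀ : ℝ, ∀ T : ℝ, T₀ ≤ T →
      c * (T * Real.log T) ≤ closeCount T ∧
      (1 + c) * (T * Real.log T / (2 * Real.pi)) ≤ pairCount T (-(103 / 200)) (103 / 200) := by
  obtain ⟨p, hp, h⟩ := Pool.Agent.Helper69.PQ.main_close
  obtain ⟨T0, hT0⟩ := eventually_atTop.mp
    ((Pool.Agent.Helper69.PP.one_side_c (by norm_num) (by norm_num) hp h).and ((Pool.Agent.Helper69.PP.pair_lower_c (by norm_num) (by norm_num) hp h).and
      (eventually_gt_atTop (1:ℝ))))
  refine ⟨p / 4, by positivity, T0, fun T hT => ?_⟩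
  obtain ⟨h1, h2, h3⟩ := hT0 T hT
  refine ⟨h1.trans (closeCount_ge T), ?_⟩
  have h4 : 0 ≤ T * Real.log T / (2 * Real.pi) := (SN_pos h3).le
  refine le_trans ?_ h2
  unfold SN
  have : (1 + p / 4) ≤ 1 + p := by linarith
  exact mul_le_mul_of_nonneg_right this h4
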