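import Pool.Agent.Helper76.LB.F

/-!
# MP_fb29e9_nt: positivity and the functional equation in the Gauss circle problem
(helper76 and the block authors of project LB)
-/

set_option autoImplicit false

open Real Set Filter Topology

namespace Pool.Agent.Results.MP_fb29e9_nt.ThetaPairExponents

/-- Theta pairs: weights `a n ≥ 0` at frequencies `lam n > 0` with `lam n → ∞`, such that
`Θ(t) = 1 + ∑ a n e^{-π lam n t}` converges and `Θ(1/t) = t Θ(t)` for all real `t > 0`. -/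
structure ThetaPair (a lam : ℕ → ℝ) : Prop where
  nonneg : ∀ n, 0 ≤ a n
  pos : ∀ n, 0 < lam n
  tends : Tendsto lam atTop atTop
  summ : ∀ t : ℝ, 0 < t → Summable (fun n => a n * Real.exp (-(π * lam n * t)))
  theta : ∀ t : ℝ, 0 < t →
    1 + ∑' n, a n * Real.exp (-(π * lam n / t)) =
      t * (1 + ∑' n, a n * Real.exp (-(π * lam n * t)))

/-- `E(R) = 1 + ∑_{lam n ≤ R²} a n - π R²`. -/
noncomputable def err (a lam : ℕ → ℝ) (R : ℝ) : ℝ :=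
  (1 + ∑' n, if lam n ≤ R ^ 2 then a n else 0) - π * R ^ 2

/-- The growth exponent of `E`. -/
noncomputable def expo (a lam : ℕ → ℝ) : ℝ :=
  sInf {θ : ℝ | 0 ≤ θ ∧ ∃ C : ℝ, ∀ R : ℝ, 1 ≤ R → |err a lam R| ≤ C * R ^ θ}

/-- `r₂(n)`, the number of `(x, y) ∈ ℤ²` with `x² + y² = n`. -/
noncomputable def r2 (n : ℕ) : ℕ := Set.ncard {p : ℤ × ℤ | p.1 ^ 2 + p.2 ^ 2 = (n : ℤ)}

theorem toLB {a lam : ℕ → ℝ} (h : ThetaPair a lam) : Pool.Agent.LB.ThetaPair a lam :=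
  ⟨h.nonneg, h.pos, h.tends, h.summ, h.theta⟩

theorem ofLB {a lam : ℕ → ℝ} (h : Pool.Agent.LB.ThetaPair a lam) : ThetaPair a lam :=
  ⟨h.nonneg, h.pos, h.tends, h.summ, h.theta⟩

/-- (1) `E(R) = O(R^{2/3})` and `E(R) = Ω(R^{1/2})` for every theta pair; (2) the growth exponents of
the theta pairs with strictly increasing frequencies form exactly the interval `[1/2, 2/3]`;
(3) `E(R) = Ω±(R^{2/3})` for a theta pair with `lam n = √((n+1)/κ)` and `c ≤ a n √(n+1) ≤ 1/c`;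
(4) `r₂` gives a theta pair whose `E` is the error term of the circle problem. -/
theorem result :
    (∀ a lam : ℕ → ℝ, ThetaPair a lam →
      (∃ C : ℝ, ∀ R : ℝ, 1 ≤ R → |err a lam R| ≤ C * R ^ (2 / 3 : ℝ)) ∧
      (∃ c : ℝ, 0 < c ∧ ∀ X : ℝ, ∃ R : ℝ, X ≤ R ∧ c * R ^ (1 / 2 : ℝ) ≤ |err a lam R|)) ∧
    {θ : ℝ | ∃ a lam : ℕ → ℝ, ThetaPair a lam ∧ StrictMono lam ∧ expo a lam = θ} =
      Icc (1 / 2 : ℝ) (2 / 3) ∧
    (∃ κ c : ℝ, 0 < κ ∧ 0 < c ∧ ∃ a : ℕ → ℝ,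
      ThetaPair a (fun n => √((n + 1 : ℕ) / κ)) ∧
      (∀ n : ℕ, c ≤ a n * √((n : ℝ) + 1) ∧ a n * √((n : ℝ) + 1) ≤ 1 / c) ∧
      (∀ X : ℝ, ∃ R : ℝ, X ≤ R ∧ c * R ^ (2 / 3 : ℝ) ≤ err a (fun n => √((n + 1 : ℕ) / κ)) R) ∧
      (∀ X : ℝ, ∃ R : ℝ, X ≤ R ∧
        err a (fun n => √((n + 1 : ℕ) / κ)) R ≤ -(c * R ^ (2 / 3 : ℝ)))) ∧
    ThetaPair (fun n => (r2 (n + 1) : ℝ)) (fun n => (n : ℝ) + 1) ∧
    ∀ R : ℝ, err (fun n => (r2 (n + 1) : ℝ)) (fun n => (n : ℝ) + 1) R =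
      (Set.ncard {p : ℤ × ℤ | (p.1 : ℝ) ^ 2 + (p.2 : ℝ) ^ 2 ≤ R ^ 2} : ℝ) - π * R ^ 2 := by
  refine ⟨?_, ?_, ?_, ofLB Pool.Agent.LB.thetaPair_r2, ?_⟩
  · intro a lam h
    obtain ⟨C, -, hC⟩ := Pool.Agent.LB.upper_R (toLB h)
    exact ⟨⟨C, hC⟩, (toLB h).lower⟩
  · ext θ
    constructor
    · rintro ⟨a, lam, h, -, rfl⟩
      exact Pool.Agent.LB.expo_mem (toLB h)
    · rintro ⟨h1, h2⟩
      obtain ⟨a, lam, h, hm, he⟩ := Pool.Agent.LB.exists_expo h1 h2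
      exact ⟨a, lam, ofLB h, hm, he⟩
  · obtain ⟨κ, c, hκ, hc, a, h, h1, h2, h3⟩ := Pool.Agent.LB.sharp_sqrt
    exact ⟨κ, c, hκ, hc, a, ofLB h, h1, h2, h3⟩
  · intro R
    have := Pool.Agent.LB.cnt_r2 (x := R ^ 2) (sq_nonneg R)
    unfold Pool.Agent.LB.cnt at this
    unfold err
    rw [← this]
    rfl

end Pool.Agent.Results.MP_fb29e9_nt.ThetaPairExponents
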