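import Mathlib
import Pool.Agent.Helper22.GC.Large4
import Pool.Agent.Helper22.GC.Bridge

/-!
# Large values of the error term of the circle problem over unit intervals of radii

A bound for the number of unit intervals of radii on which the error term `P(R) = F(R) - π R²`
reaches the size `V`, valid for all `V` and in short ranges of radii.
-/

namespace Pool.Agent.Results.MP_fb29e9_nt.UnitIntervalMaxima

/-- The error term `P(R) = F(R) - π R²` of the circle problem. -/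
noncomputable def circleError (R : ℝ) : ℝ :=
  (Nat.card {p : ℤ × ℤ // (p.1 : ℝ) ^ 2 + (p.2 : ℝ) ^ 2 ≤ R ^ 2} : ℝ) - Real.pi * R ^ 2

open Pool.Agent.Helper22.GC in
theorem result (ε : ℝ) (hε : 0 < ε) :
    ∃ (C : ℝ) (M₀ : ℕ), ∀ (M H : ℕ) (V : ℝ), M₀ ≤ M → 1 ≤ H → H ≤ M → 0 < V →
      ({m : ℕ | M < m ∧ m ≤ M + H ∧
        ∃ R : ℝ, (m : ℝ) ≤ R ∧ R ≤ m + 1 ∧ V ≤ |circleError R|}.ncard : ℝ)
        ≤ C * (M : ℝ) ^ ε * (H * (M : ℝ) ^ 3 / V ^ 6 + (M : ℝ) ^ 2 / V ^ 3) := by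
  obtain ⟨C, M₀, h⟩ := unit_large_final hε
  refine ⟨C, M₀, fun M H V hM hH hHM hV => ?_⟩
  have hPe : ∀ R, circleError R = Pe R := fun R => by rw [Pe_eq, circleError]
  have h1 := h M H V hM hH hHM hV
  simp only [hPe]
  exact h1

end Pool.Agent.Results.MP_fb29e9_nt.UnitIntervalMaxima
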